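import Pool.Agent.Lib.helper20.C0

set_option autoImplicit false

namespace Pool.Agent.H.MP_f27419_an

open Filter Topology Set
open Pool.Agent.Lib.helper20

variable {E : Type*} [NormedAddCommGroup E] [NormedSpace ℝ E]

/-- weakly unconditionally Cauchy series -/
def W (x : ℕ → E) (C : ℝ) : Prop :=
  ∀ (F : Finset ℕ) (a : ℕ → ℝ), (∀ i, |a i| ≤ 1) → ‖∑ i ∈ F, a i • x i‖ ≤ C

theorem W.comp {x : ℕ → E} {C : ℝ} (h : W x C) {n : ℕ → ℕ} (hn : Function.Injective n) :
    W (x ∘ n) C := fun F a ha => by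
  have := h (F.image n) (Function.extend n a 0) fun i => by
    by_cases k : ∃ j, n j = i
    · obtain ⟨j, rfl⟩ := k
      rw [hn.extend_apply]
      exact ha j
    · simp [Function.extend_apply' _ _ _ k]
  simpa [Finset.sum_image hn.injOn, hn.extend_apply] using this

theorem W.le {x : ℕ → E} {C : ℝ} (h : W x C) (F : Finset ℕ) (a : ℕ → ℝ) {r : ℝ} (hr : 0 < r)
    (ha : ∀ i ∈ F, |a i| ≤ r) : ‖∑ i ∈ F, a i • x i‖ ≤ r * C := by
  have := h F (fun i => if i ∈ F then r⁻¹ * a i else 0) fun i => by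
    split_ifs with k
    · rw [abs_mul, abs_inv, abs_of_pos hr, inv_mul_le_iff₀ hr, mul_one]
      exact ha i k
    · simp
  rw [Finset.sum_congr rfl fun i hi => by rw [if_pos hi, mul_smul], ← Finset.smul_sum, norm_smul,
    norm_inv, Real.norm_of_nonneg hr.le, inv_mul_le_iff₀ hr] at this
  exact this

theorem synth [CompleteSpace E] {x : ℕ → E} {C : ℝ} (h : W x C) :
    ∃ S : C0.X →L[ℝ] E, ∀ a, HasSum (fun i => C0.ev i a • x i) (S a) := by
  have hC : 0 ≤ C := by simpa using h ∅ 0 (by simp)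
  have hs : ∀ a, Summable fun i => C0.ev i a • x i := fun a => by
    refine summable_iff_vanishing_norm.2 fun ε hε => ?_
    obtain ⟨N, hN⟩ := Metric.tendsto_atTop.1 (C0.tend a) (ε / (C + 1)) (by positivity)
    refine ⟨Finset.range N, fun t ht => (h.le t _ (r := ε / (C + 1)) (by positivity) fun i hi => ?_
      ).trans_lt ?_⟩
    · simpa using (hN i (not_lt.1 fun k => Finset.disjoint_left.1 ht hi (Finset.mem_range.2 k))).le
    · rw [div_mul_eq_mul_div, div_lt_iff₀ (by positivity)]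
      linarith
  refine ⟨LinearMap.mkContinuous ⟨⟨fun a => ∑' i, C0.ev i a • x i, fun a b => ?_⟩, fun c a => ?_⟩ C
    fun a => ?_, fun a => (hs a).hasSum⟩
  · simp only [map_add, add_smul, (hs a).tsum_add (hs b)]
  · simp only [map_smul, smul_eq_mul, mul_smul, RingHom.id_apply, (hs a).tsum_const_smul c]
  · by_cases ha : a = 0
    · simp [ha]
    · exact le_of_tendsto' (hs a).hasSum.norm fun F => (h.le F _ (norm_pos_iff.2 ha)
        fun i _ => C0.abs_le_norm a i).trans_eq (mul_comm _ _)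

theorem diag {x : ℕ → E} {S : C0.X →L[ℝ] E} (hS : ∀ a, HasSum (fun i => C0.ev i a • x i) (S a))
    (σ : E →L[ℝ] ℝ) (l : ℕ) {η : ℝ} (h : ∀ i ≠ l, |σ (x i)| ≤ η / 2 / 2 ^ i) (hη : 0 ≤ η)
    (a : C0.X) : |σ (S a) - C0.ev l a * σ (x l)| ≤ ‖a‖ * η := by
  have h1 := (σ.hasSum (hS a)).sub (hasSum_ite_eq l (C0.ev l a * σ (x l)))
  refine h1.norm_le_of_bounded ((hasSum_geometric_two' η).mul_left ‖a‖) fun i => ?_
  split_ifs with k
  · simp only [k, map_smul, smul_eq_mul, sub_self, norm_zero]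
    positivity
  · rw [sub_zero, map_smul, smul_eq_mul, norm_mul]
    exact mul_le_mul (C0.abs_le_norm a i) (h i k) (norm_nonneg _) (norm_nonneg _)

theorem ram (r : ℕ → ℕ → ℝ → Prop) (mono : ∀ k j a b, a ≤ b → r k j a → r k j b)
    (h : ∀ (U : Ultrafilter ℕ) ε, 0 < ε → ∀ᶠ j in atTop, ∀ᶠ k in U, r k j ε) {η : ℝ} (hη : 0 < η) :
    ∃ n : ℕ → ℕ, StrictMono n ∧ ∀ l, ∀ i ≠ l, r (n l) (n i) (η / 2 / 2 ^ i) := by
  obtain ⟨f, h1, h2⟩ := exists_seq_of_forall_finset_exists
    (fun x : ℕ × ℕ => ∀ᶠ k in hyperfilter ℕ, r k x.1 (η / 2 / 2 ^ x.2))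
    (fun x y => x.1 < y.1 ∧ x.2 < y.2 ∧ r y.1 x.1 (η / 2 / 2 ^ x.2) ∧ r x.1 y.1 (η / 2 / 2 ^ y.2))
    fun s hs => by
      obtain ⟨m, hm⟩ := (s.eventually_all.2 fun x _ => eventually_gt_atTop x.2).exists
      have e : 0 < η / 2 / 2 ^ m := by positivity
      obtain ⟨k, a, b⟩ := ((((h _ _ e).and (s.eventually_all.2 fun x _ =>
        (eventually_gt_atTop x.1).and (h (pure x.1) _ e))).filter_mono
        Nat.hyperfilter_le_atTop).and (s.eventually_all.2 hs)).exists
      exact ⟨(k, m), a.1, fun x hx => ⟨(a.2 x hx).1, hm x hx, b x hx, (a.2 x hx).2⟩⟩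
  have h3 : StrictMono fun i => (f i).2 := fun a b k => (h2 a b k).2.1
  refine ⟨fun i => (f i).1, fun a b k => (h2 a b k).1, fun l i hi => mono _ _ _ _ (by
    gcongr
    · norm_num
    · exact h3.le_apply) (?_ : r _ _ (η / 2 / 2 ^ (f i).2))⟩
  rcases hi.lt_or_gt with k | k
  exacts [(h2 i l k).2.2.1, (h2 l i k).2.2.2]

theorem bp [CompleteSpace E] (h0 : ¬ ∃ (T : C0.X →L[ℝ] E) (c : ℝ), 0 < c ∧ ∀ f, c * ‖f‖ ≤ ‖T f‖)
    {x : ℕ → E} {C : ℝ} (h : W x C) : Tendsto x atTop (𝓝 0) := by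
  refine NormedAddGroup.tendsto_nhds_zero.2 fun δ hδ => by_contra fun k => h0 ?_
  obtain ⟨p, hp, h1⟩ := extraction_of_frequently_atTop (not_eventually.1 k)
  replace h := h.comp hp.injective
  choose f f1 f2 using fun k => exists_dual_vector'' ℝ (x (p k))
  obtain ⟨n, hn, h2⟩ := ram (fun k j ε => |f k (x (p j))| ≤ ε) (fun _ _ _ _ a b => b.trans a)
    (fun U ε hε => by
      by_contra k
      obtain ⟨N, hN⟩ := exists_nat_gt (C / ε)
      obtain ⟨F, hF, rfl⟩ := (Nat.frequently_atTop_iff_infinite.1 (not_eventually.1 k)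
        ).exists_subset_card_eq N
      obtain ⟨k, hk⟩ := (F.eventually_all.2 fun j hj =>
        Ultrafilter.eventually_not.2 (hF hj)).exists
      have h3 := ((f k).le_opNorm _).trans ((mul_le_of_le_one_left (norm_nonneg _) (f1 k)).trans
        (h F (fun j => SignType.sign (f k (x (p j)))) fun j => by
          rcases lt_trichotomy (f k (x (p j))) 0 with e | e | e <;> simp [e]))
      simp only [map_sum, map_smul, smul_eq_mul, Function.comp, sign_mul_self] at h3
      have h4 := Finset.card_nsmul_le_sum F _ _ fun j hj => (not_le.1 (hk j hj)).le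
      rw [div_lt_iff₀ hε] at hN
      rw [nsmul_eq_mul] at h4
      linarith [h3.trans' (le_abs_self _)]) (half_pos hδ)
  obtain ⟨S, hS⟩ := synth (h.comp hn.injective)
  refine ⟨S, δ / 2, half_pos hδ, fun a => ?_⟩
  have : ‖a‖ ≤ (‖S a‖ + ‖a‖ * (δ / 2)) / δ := C0.norm_le _ _ (by positivity) fun l => by
    have h3 := diag hS (f (n l)) l (h2 l) (half_pos hδ).le a
    have h4 := ((f (n l)).le_opNorm (S a)).trans (mul_le_of_le_one_left (norm_nonneg _) (f1 _))
    have h5 := mul_le_mul_of_nonneg_left (not_lt.1 (h1 (n l))) (abs_nonneg (C0.ev l a))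
    have h6 := abs_sub_abs_le_abs_sub (C0.ev l a * ‖x (p (n l))‖) (f (n l) (S a))
    simp only [Function.comp, f2, RCLike.ofReal_real_eq_id, id] at h3
    rw [abs_mul, abs_norm, abs_sub_comm] at h6
    rw [le_div_iff₀ hδ]
    exact h5.trans (by linarith [Real.norm_eq_abs _ ▸ h4])
  rw [le_div_iff₀ hδ] at this
  linarith

theorem compl [CompleteSpace E] {x : ℕ → E} {C η M : ℝ} (h : W x C) (σ : ℕ → E →L[ℝ] ℝ)
    (hη : 0 < η) (hM : ∀ l, ‖σ l‖ ≤ M) (h1 : ∀ y, Tendsto (σ · y) atTop (𝓝 0))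
    (h2 : ∀ l, 2 * η ≤ σ l (x l)) (h3 : ∀ l, ∀ i ≠ l, |σ l (x i)| ≤ η / 2 / 2 ^ i) :
    ∃ (J : C0.X →L[ℝ] E) (Q : E →L[ℝ] C0.X), Q.comp J = ContinuousLinearMap.id ℝ _ := by
  obtain ⟨S, hS⟩ := synth h
  have p : ∀ l, 0 < σ l (x l) := fun l => (by positivity : 0 < 2 * η).trans_le (h2 l)
  have b : ∀ l y, |σ l y / σ l (x l)| ≤ |σ l y| / (2 * η) := fun l y => by
    rw [abs_div, abs_of_pos (p l)]
    gcongr
    exact h2 l
  let T : E →L[ℝ] C0.X := LinearMap.mkContinuous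
    ⟨⟨fun y => C0.mk (fun l => σ l y / σ l (x l)) (squeeze_zero_norm (b · y)
      (by simpa using (h1 y).abs.div_const (2 * η))),
      fun a c => C0.ext fun l => by simp [C0.ev_mk, add_div]⟩,
      fun a c => C0.ext fun l => by simp [C0.ev_mk, mul_div_assoc]⟩ (M / (2 * η)) fun y =>
    C0.norm_le _ _ (by have := (norm_nonneg _).trans (hM 0); positivity) fun l => (b l y).trans (by
      rw [div_mul_eq_mul_div]
      gcongr
      exact ((σ l).le_opNorm y).trans (by gcongr; exact hM l))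
  have hT : ∀ l y, C0.ev l (T y) = σ l y / σ l (x l) := fun _ _ => rfl
  obtain ⟨u, hu⟩ := isUnit_one_sub_of_norm_lt_one (x := 1 - T.comp S) (lt_of_le_of_lt
    (ContinuousLinearMap.opNorm_le_bound _ (M := 1 / 2) (by norm_num) fun a =>
      C0.norm_le _ _ (by positivity) fun l => by
        have := diag hS (σ l) l (h3 l) hη.le a
        have e : C0.ev l ((1 - T.comp S) a) = -(σ l (S a) - C0.ev l a * σ l (x l)) / σ l (x l) := by
          have := (p l).ne'
          simp only [sub_apply, map_sub, ContinuousLinearMap.comp_apply, hT, one_apply_eq_self]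
          field_simp
          ring
        rw [e, abs_div, abs_neg, abs_of_pos (p l), div_le_iff₀ (p l)]
        nlinarith [h2 l, norm_nonneg a]) (by norm_num))
  rw [sub_sub_cancel] at hu
  exact ⟨S, (↑u⁻¹ : C0.X →L[ℝ] C0.X).comp T, by
    rw [ContinuousLinearMap.comp_assoc, ← hu]
    exact u.inv_mul⟩

end Pool.Agent.H.MP_f27419_an
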