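import Pool.Agent.H.MP_f27419_an.A

set_option autoImplicit false

namespace Pool.Agent.H.MP_f27419_an

open Filter Topology Set MeasureTheory CompactlySupported
open Pool.Agent.Lib.helper20

variable {K : Type} [TopologicalSpace K] [CompactSpace K] [T2Space K]

theorem mz (φ : ℕ → C(K, ℝ)) (h1 : ∀ n t, 0 ≤ φ n t ∧ φ n t ≤ 1)
    (h2 : ∀ t, Tendsto (fun n => φ n t) atTop (𝓝 0)) {δ : ℝ} (δ0 : 0 < δ) :
    ∃ ψ ∈ convexHull ℝ (range φ), ∀ t, ψ t < δ := by
  by_contra! k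
  obtain ⟨g, s, g1, g2⟩ := geometric_hahn_banach_open (s := {φ : C(K, ℝ) | MapsTo φ univ (Iio δ)})
    (t := convexHull ℝ (range φ))
    (fun a ha b hb s t s0 t0 st k _ => convex_Iio δ (ha (mem_univ k)) (hb (mem_univ k)) s0 t0 st)
    (ContinuousMap.isOpen_setOfPred_mapsTo isCompact_univ isOpen_Iio) (convex_convexHull _ _)
    (disjoint_left.2 fun a ha hb => (k a hb).elim fun t ht => ht.not_gt (ha (mem_univ t)))
  have s0 : 0 < s := by simpa using g1 0 fun k _ => δ0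
  let Λ : C_c(K, ℝ) →ₚ[ℝ] ℝ := PositiveLinearMap.mk₀
    { toFun := fun f => g f.toContinuousMap
      map_add' := fun a b => g.map_add _ _
      map_smul' := fun c a => g.map_smul _ _ } fun f hf => not_lt.1 fun l => by
      have l : g f.toContinuousMap < 0 := l
      have := g1 ((s / g f.toContinuousMap) • f.toContinuousMap) fun k _ => lt_of_le_of_lt
        (mul_nonpos_of_nonpos_of_nonneg (div_neg_of_pos_of_neg s0 l).le (hf k)) δ0
      simp [l.ne] at this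
  borelize K
  have t := tendsto_integral_of_dominated_convergence (μ := RealRMK.rieszMeasure Λ)
    (F := fun n k => φ n k) (f := fun _ => 0) (fun _ => 1)
    (fun n => (φ n).continuous.aestronglyMeasurable) (integrable_const 1)
    (fun n => .of_forall fun k => (Real.norm_of_nonneg (h1 n k).1).trans_le (h1 n k).2)
    (.of_forall h2)
  rw [integral_zero] at t
  refine (ge_of_tendsto' t fun n => ?_).not_gt s0
  exact (g2 (φ n) (subset_convexHull _ _ ⟨n, rfl⟩)).trans_eq (RealRMK.integral_rieszMeasure Λ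
    (CompactlySupportedContinuousMap.continuousMapEquiv (φ n))).symm

theorem small (φ : ℕ → C(K, ℝ)) (h1 : ∀ n t, 0 ≤ φ n t ∧ φ n t ≤ 1)
    (h2 : ∀ t, Tendsto (fun n => φ n t) atTop (𝓝 0)) (σ : ℕ → C(K, ℝ) →L[ℝ] ℝ) {M : ℝ}
    (hM : ∀ k, ‖σ k‖ ≤ M) (U : Ultrafilter ℕ) (ε : ℝ) (hε : 0 < ε) :
    ∀ᶠ j in atTop, ∀ᶠ k in U, ∀ h : C(K, ℝ), (∀ t, |h t| ≤ φ j t) → |σ k h| ≤ ε := by
  by_contra k
  have M0 := (σ 0).opNorm_nonneg.trans (hM 0)
  obtain ⟨p, hp, h3⟩ := extraction_of_frequently_atTop (not_eventually.1 k)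
  obtain ⟨ψ, h4, h5⟩ := mz (φ ∘ p) (fun n => h1 _) (fun t => (h2 t).comp hp.tendsto_atTop)
    (δ := ε / (M + 1)) (by positivity)
  have h6 : ∀ᶠ k in U, ∃ h : C(K, ℝ), (∀ t, |h t| ≤ ψ t) ∧ ε < σ k h := convexHull_min
    (t := {ψ : C(K, ℝ) | ∀ᶠ k in U, ∃ h : C(K, ℝ), (∀ t, |h t| ≤ ψ t) ∧ ε < σ k h}) (by
      rintro _ ⟨n, rfl⟩
      filter_upwards [Ultrafilter.eventually_not.2 (h3 n)] with k hk
      push Not at hk
      obtain ⟨h, a, b⟩ := hk
      rcases lt_abs.1 b with b | b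
      · exact ⟨h, a, b⟩
      · exact ⟨-h, by simpa using a, by simpa using b⟩)
    (fun a ha b hb s t s0 t0 st => by
      filter_upwards [ha, hb] with k ⟨f, a1, a2⟩ ⟨g, b1, b2⟩
      refine ⟨s • f + t • g, fun z => ?_, by simpa using convex_Ioi ε a2 b2 s0 t0 st⟩
      simp only [ContinuousMap.add_apply, ContinuousMap.smul_apply, smul_eq_mul]
      refine (abs_add_le _ _).trans ?_
      rw [abs_mul, abs_mul, abs_of_nonneg s0, abs_of_nonneg t0]
      gcongr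
      exacts [a1 z, b1 z]) h4
  obtain ⟨k, h, h6, h7⟩ := h6.exists
  have h8 : ‖h‖ ≤ ε / (M + 1) :=
    (ContinuousMap.norm_le _ (by positivity)).2 fun t => (h6 t).trans (h5 t).le
  have h9 := (le_abs_self _).trans (((σ k).le_opNorm h).trans (mul_le_mul (hM k) h8
    (norm_nonneg _) M0))
  rw [← mul_div_assoc, le_div_iff₀ (by positivity)] at h9
  nlinarith

theorem groth (h0 : ¬ ∃ (J : C0.X →L[ℝ] C(K, ℝ)) (Q : C(K, ℝ) →L[ℝ] C0.X),
      Q.comp J = ContinuousLinearMap.id ℝ _)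
    (φ : ℕ → C(K, ℝ)) (h1 : ∀ n t, 0 ≤ φ n t ∧ φ n t ≤ 1)
    (h2 : ∀ t, Tendsto (fun n => φ n t) atTop (𝓝 0)) (σ : ℕ → C(K, ℝ) →L[ℝ] ℝ) {M : ℝ}
    (hM : ∀ k, ‖σ k‖ ≤ M) (h3 : ∀ y, Tendsto (σ · y) atTop (𝓝 0)) {η : ℝ} (hη : 0 < η) :
    ∀ᶠ k in atTop, σ k (φ k) < 3 * η := by
  refine by_contra fun k => h0 ?_
  obtain ⟨p, hp, h4⟩ := extraction_of_frequently_atTop (not_eventually.1 k)
  obtain ⟨n, hn, h5⟩ := ram _ (fun _ _ _ _ a b h c => (b h c).trans a)
    (small (φ ∘ p) (fun n => h1 _) (fun t => (h2 t).comp hp.tendsto_atTop) (σ ∘ p) fun _ => hM _) hη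
  let P : ℕ → C(K, ℝ) := fun l => ∏ i ∈ Finset.range l, (1 - φ (p (n i)))
  let ψ : ℕ → C(K, ℝ) := fun l => φ (p (n l)) * P l
  have P1 : ∀ l t, 0 ≤ P l t ∧ P l t ≤ 1 := fun l t => by
    simp only [P, ContinuousMap.prod_apply, ContinuousMap.sub_apply, ContinuousMap.one_apply]
    exact ⟨Finset.prod_nonneg fun i _ => sub_nonneg.2 (h1 _ t).2,
      Finset.prod_le_one (fun i _ => sub_nonneg.2 (h1 _ t).2) fun i _ => sub_le_self _ (h1 _ t).1⟩
  have P2 : ∀ l, ∑ i ∈ Finset.range l, ψ i = 1 - P l := fun l => by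
    induction l with
    | zero => simp [P]
    | succ l ih =>
      rw [Finset.sum_range_succ, ih]
      simp only [P, ψ, Finset.prod_range_succ]
      ring
  have s1 : ∀ l t, 0 ≤ ψ l t ∧ ψ l t ≤ φ (p (n l)) t := fun l t =>
    ⟨mul_nonneg (h1 _ t).1 (P1 l t).1, mul_le_of_le_one_right (h1 _ t).1 (P1 l t).2⟩
  refine compl (x := ψ) (C := 1) (fun F a ha => (ContinuousMap.norm_le _ zero_le_one).2 fun t => ?_)
    (fun l => σ (p (n l))) hη (fun _ => hM _)
    (fun y => (h3 y).comp (hp.comp hn).tendsto_atTop) (fun l => ?_)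
    fun l i hi => h5 l i hi _ fun t => (abs_of_nonneg (s1 i t).1).trans_le (s1 i t).2
  · obtain ⟨N, hN⟩ := F.exists_nat_subset_range
    have := congrArg (· t) (P2 N)
    simp only [ContinuousMap.sum_apply, ContinuousMap.smul_apply, ContinuousMap.sub_apply,
      ContinuousMap.one_apply] at this ⊢
    refine (norm_sum_le _ _).trans ((Finset.sum_le_sum fun i _ => ?_).trans
      ((Finset.sum_le_sum_of_subset_of_nonneg hN fun i _ _ => (s1 i t).1).trans
        (this.trans_le (sub_le_self _ (P1 N t).1))))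
    rw [norm_smul, Real.norm_of_nonneg (s1 i t).1]
    exact mul_le_of_le_one_left (s1 i t).1 (ha i)
  · have e : ψ l = φ (p (n l)) - ∑ i ∈ Finset.range l, φ (p (n l)) * ψ i := by
      rw [← Finset.mul_sum, P2]
      simp only [ψ]
      ring
    have b : ∑ i ∈ Finset.range l, σ (p (n l)) (φ (p (n l)) * ψ i) ≤ η :=
      (Finset.sum_le_sum fun i hi => (le_abs_self _).trans
        (h5 l i (Finset.mem_range.1 hi).ne _ fun t => by
          rw [ContinuousMap.mul_apply, abs_of_nonneg (mul_nonneg (h1 _ t).1 (s1 i t).1)]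
          exact (mul_le_of_le_one_left (s1 i t).1 (h1 _ t).2).trans (s1 i t).2)).trans
        (sum_le_hasSum _ (fun _ _ => by positivity) (hasSum_geometric_two' η))
    rw [e, map_sub, map_sum]
    linarith [not_lt.1 (h4 (n l))]

variable {X : Type} [NormedAddCommGroup X] [NormedSpace ℝ X]

theorem incr (h0 : ¬ ∃ (J : C0.X →L[ℝ] C(K, ℝ)) (Q : C(K, ℝ) →L[ℝ] C0.X),
      Q.comp J = ContinuousLinearMap.id ℝ _)
    (ν : ℕ → C(K, X) →L[ℝ] ℝ) (ν' : C(K, X) →L[ℝ] ℝ) {M B : ℝ} (hM : ∀ k, ‖ν k‖ ≤ M) (hB : 0 < B)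
    (h1 : ∀ y, Tendsto (ν · y) atTop (𝓝 (ν' y))) (F : ℕ → C(K, X)) (h2 : ∀ k, ‖F k‖ ≤ B)
    (h3 : ∀ t, Tendsto (F · t) atTop (𝓝 0)) (h4 : ∀ k, ν k (F k) = 1) :
    ∃ k, ‖ν'‖ + 1 / (2 * B) ≤ ‖ν k‖ := by
  have M0 := (norm_nonneg _).trans (hM 0)
  obtain ⟨ε, hε, e1⟩ : ∃ ε : ℝ, 0 < ε ∧ ε = 1 / (24 * B) := ⟨_, by positivity, rfl⟩
  obtain ⟨δ, hδ, e2⟩ : ∃ δ : ℝ, 0 < δ ∧ δ = 1 / (4 * (M + 1)) := ⟨_, by positivity, rfl⟩
  obtain ⟨G, g1, g2⟩ : ∃ G, ‖G‖ ≤ 1 ∧ ‖ν'‖ - ε < ν' G := by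
    by_contra! k
    have := ν'.opNorm_le_of_unit_norm (C := ‖ν'‖ - ε) (by simpa using k 0 (by simp)) fun x hx =>
      abs_le.2 ⟨by have := k (-x) (by simp [hx]); rw [map_neg] at this; linarith, k x hx.le⟩
    linarith
  let m : C(K, ℝ) →L[ℝ] C(K, X) := LinearMap.mkContinuous
    ⟨⟨fun f => f • G, fun a b => add_smul _ _ _⟩, fun c a =>
      ContinuousMap.ext fun t => mul_smul c (a t) (G t)⟩ 1 fun f =>
    (ContinuousMap.norm_le _ (by positivity)).2 fun t => by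
      change ‖f t • G t‖ ≤ _
      rw [norm_smul, mul_comm]
      exact mul_le_mul ((G.norm_coe_le_norm t).trans g1) (f.norm_coe_le_norm t) (norm_nonneg _)
        zero_le_one
  let φ : ℕ → C(K, ℝ) := fun k => ⟨fun t => min 1 (‖F k t‖ / δ), by fun_prop⟩
  have p1 : ∀ n t, 0 ≤ φ n t ∧ φ n t ≤ 1 := fun n t =>
    ⟨le_min zero_le_one (by positivity), min_le_left _ _⟩
  have p2 : ∀ t, Tendsto (fun n => φ n t) atTop (𝓝 0) := fun t => by
    simpa [φ] using tendsto_const_nhds (x := (1 : ℝ)).min ((h3 t).norm.div_const δ)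
  obtain ⟨k, ⟨a1, a2⟩, a3⟩ := (((groth h0 φ p1 p2 (fun k => (ν k - ν').comp m)
    (M := (M + ‖ν'‖) * ‖m‖) (fun k => (ContinuousLinearMap.opNorm_comp_le _ _).trans (by
      gcongr
      exact (norm_sub_le _ _).trans (by gcongr; exact hM k)))
    (fun y => by simpa using (h1 (m y)).sub_const (ν' (m y))) hε).and
    (small φ p1 p2 (fun _ => ν'.comp m) (fun _ => le_rfl) (pure 0) ε hε)).and
    ((h1 G).eventually (lt_mem_nhds (sub_lt_self _ hε)))).exists
  replace a2 := (le_abs_self _).trans (a2 (φ k) fun t => (abs_of_nonneg (p1 k t).1).le)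
  have b1 : ‖G - m (φ k) + B⁻¹ • F k‖ ≤ 1 + δ / B :=
    (ContinuousMap.norm_le _ (by positivity)).2 fun t => by
      change ‖G t - min 1 (‖F k t‖ / δ) • G t + B⁻¹ • F k t‖ ≤ _
      rcases le_total 1 (‖F k t‖ / δ) with h | h
      · rw [min_eq_left h, one_smul, sub_self, zero_add, norm_smul, norm_inv,
          Real.norm_of_nonneg hB.le]
        exact (inv_mul_le_one_of_le₀ (((F k).norm_coe_le_norm t).trans (h2 k)) hB.le).trans
          (le_add_of_nonneg_right (by positivity))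
      · refine (norm_add_le _ _).trans (add_le_add ?_ ?_)
        · nth_rw 1 [← one_smul ℝ (G t)]
          rw [← sub_smul, norm_smul, Real.norm_of_nonneg (sub_nonneg.2 (min_le_left _ _))]
          exact mul_le_one₀ (sub_le_self _ (p1 k t).1) (norm_nonneg _)
            ((G.norm_coe_le_norm t).trans g1)
        · rw [norm_smul, norm_inv, Real.norm_of_nonneg hB.le, inv_mul_eq_div]
          gcongr
          exact (div_le_one hδ).1 h
  have b2 := (le_abs_self _).trans (((ν k).le_opNorm _).trans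
    (mul_le_mul_of_nonneg_left b1 (norm_nonneg _)))
  simp only [map_add, map_sub, map_smul, h4, smul_eq_mul, mul_one, ContinuousLinearMap.comp_apply,
    sub_apply] at b2 a1 a2
  have b3 : ‖ν k‖ * (δ / B) ≤ 1 / (4 * B) := by
    rw [e2, div_div, mul_one_div, div_le_div_iff₀ (by positivity) (by positivity)]
    nlinarith [hM k]
  have b4 : 6 * ε + 1 / (4 * B) + 1 / (2 * B) = B⁻¹ := by
    rw [e1]
    field_simp
    norm_num
  exact ⟨k, by linarith⟩

end Pool.Agent.H.MP_f27419_an
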