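import Pool.Agent.H.MP_f27419_an.B

set_option autoImplicit false

namespace Pool.Agent.H.MP_f27419_an

open Filter Topology Set Ordinal
open Pool.Agent.Lib.helper20

abbrev D := Icc (0 : Ordinal.{0}) (ω ^ ω)

noncomputable def ind (a b : Ordinal.{0}) : C(D, ℝ) :=
  ⟨fun s => (Ioc a b).indicator 1 s.1, (IsClopen.continuous_indicator
    ⟨by rw [← Order.Icc_succ_left]; exact isClosed_Icc,
      by rw [← Order.Ioo_succ_right]; exact isOpen_Ioo⟩ continuous_const).comp continuous_subtype_val⟩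

theorem ind_W {a : ℕ → Ordinal.{0}} (ha : Monotone a) : W (fun k => ind (a k) (a (k + 1))) 1 :=
  fun F c hc => (ContinuousMap.norm_le _ zero_le_one).2 fun s => by
    simp only [ContinuousMap.sum_apply, ContinuousMap.smul_apply, ind, ContinuousMap.coe_mk]
    by_cases h : ∃ i, s.1 ∈ Ioc (a i) (a (i + 1))
    · obtain ⟨i, hi⟩ := h
      refine (norm_sum_le _ _).trans ((Finset.sum_le_sum (g := fun j => if j = i then 1 else 0)
        fun j _ => ?_).trans (by simp only [Finset.sum_ite_eq']; split_ifs <;> simp))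
      split_ifs with hj
      · simpa [hj, hi] using hc i
      · have : s.1 ∉ Ioc (a j) (a (j + 1)) := fun k =>
          disjoint_left.1 (ha.pairwise_disjoint_on_Ioc_succ hj) k hi
        simp [this]
    · simp [indicator_of_notMem (not_exists.1 h _)]

theorem lim (β : Ordinal.{0}) (n : ℕ) :
    Tendsto (fun k : ℕ => β + ω ^ (n : Ordinal) * k) atTop (𝓝 (β + ω ^ ((n + 1 : ℕ) : Ordinal))) := by
  have h : Tendsto (fun k : ℕ => (k : Ordinal.{0})) atTop (𝓝 ω) :=
    tendsto_atTop_isLUB Nat.mono_cast ⟨by rintro _ ⟨k, rfl⟩; exact (natCast_lt_omega0 k).le,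
      fun c hc => omega0_le.2 fun k => hc ⟨k, rfl⟩⟩
  rw [Nat.cast_succ, opow_add, opow_one]
  exact (((isNormal_add_right β).comp
    (isNormal_mul_right (opow_pos _ omega0_pos))).continuous.tendsto ω).comp h

variable {K : Type} [TopologicalSpace K] [CompactSpace K] [T2Space K]
  {X : Type} [NormedAddCommGroup X] [NormedSpace ℝ X] [CompleteSpace X]

theorem main (h0 : ¬ ∃ (J : C0.X →L[ℝ] C(K, ℝ)) (Q : C(K, ℝ) →L[ℝ] C0.X),
      Q.comp J = ContinuousLinearMap.id ℝ _)
    (hX : ¬ ∃ (T : C0.X →L[ℝ] X) (c : ℝ), 0 < c ∧ ∀ f, c * ‖f‖ ≤ ‖T f‖)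
    (J : C(D, ℝ) →L[ℝ] C(K, X)) (Q : C(K, X) →L[ℝ] C(D, ℝ))
    (h : Q.comp J = ContinuousLinearMap.id ℝ _) : False := by
  let π : Ordinal.{0} → D := projIcc _ _ bot_le
  let ν : Ordinal.{0} → C(K, X) →L[ℝ] ℝ := fun o => (ContinuousMap.evalCLM ℝ (π o)).comp Q
  have hM : ∀ o, ‖ν o‖ ≤ ‖Q‖ := fun o => ContinuousLinearMap.opNorm_le_bound _ Q.opNorm_nonneg
    fun y => ((Q y).norm_coe_le_norm _).trans (Q.le_opNorm y)
  have hB : 0 < ‖J‖ + 1 := by positivity
  have key : ∀ n : ℕ, ∀ β < ω ^ ω,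
      ‖ν (β + ω ^ (n : Ordinal))‖ + n * (1 / (2 * (‖J‖ + 1))) ≤ ‖Q‖ := fun n => by
    induction n with
    | zero => exact fun β _ => by simpa using hM _
    | succ n ih =>
      intro β hβ
      let a : ℕ → Ordinal.{0} := fun k => β + ω ^ (n : Ordinal) * k
      have a1 : ∀ k, a k < ω ^ ω := fun k => isPrincipal_add_omega0_opow _ hβ
        (opow_mul_lt_opow (natCast_lt_omega0 k) (natCast_lt_omega0 n))
      have a2 : ∀ k, a (k + 1) = a k + ω ^ (n : Ordinal) := fun k => by
        simp only [a, Nat.cast_succ, mul_add, mul_one, add_assoc]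
      have a3 : StrictMono a := strictMono_nat_of_lt_succ fun k =>
        (a2 k).symm ▸ lt_add_of_pos_right _ (opow_pos _ omega0_pos)
      have w := ind_W a3.monotone
      obtain ⟨k, hk⟩ := incr h0 (fun k => ν (a (k + 1))) (ν (β + ω ^ ((n + 1 : ℕ) : Ordinal)))
        (fun _ => hM _) hB
        (fun y => ((((Q y).continuous.comp continuous_projIcc).tendsto _).comp (lim β n)).comp
          (tendsto_add_atTop_nat 1))
        (fun k => J (ind (a k) (a (k + 1))))
        (fun k => (J.le_opNorm _).trans ((mul_le_of_le_one_right J.opNorm_nonneg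
          (by simpa using w {k} 1 (by simp))).trans (le_add_of_nonneg_right zero_le_one)))
        (fun t => bp hX (C := ‖J‖) fun F c hc => by
          have := ((J (∑ i ∈ F, c i • ind (a i) (a (i + 1)))).norm_coe_le_norm t).trans
            ((J.le_opNorm _).trans (mul_le_of_le_one_right J.opNorm_nonneg (w F c hc)))
          simpa only [map_sum, map_smul, ContinuousMap.sum_apply, ContinuousMap.smul_apply]
            using this)
        fun k => by
          change (Q.comp J) _ _ = _
          rw [h]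
          change (Ioc _ _).indicator 1 (projIcc _ _ _ _).1 = _
          rw [projIcc_of_mem _ ⟨zero_le, (a1 _).le⟩,
            indicator_of_mem (right_mem_Ioc.2 (a3 k.lt_succ_self)), Pi.one_apply]
      have := ih _ (a1 k)
      rw [← a2] at this
      rw [Nat.cast_succ (R := ℝ)]
      linarith
  obtain ⟨n, hn⟩ := exists_nat_gt (‖Q‖ / (1 / (2 * (‖J‖ + 1))))
  rw [div_lt_iff₀ (by positivity)] at hn
  linarith [key n 0 (opow_pos _ omega0_pos), (ν (0 + ω ^ (n : Ordinal))).opNorm_nonneg]

end Pool.Agent.H.MP_f27419_an
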